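import Pool.Agent.N206.HJ.Stm

set_option autoImplicit false

/-! # HJ/EXIST: automorphisms with given images of the variables (helper403) -/

namespace Pool.Agent.N403.HJ

open Pool.Agent.N206.HJ MvPowerSeries

variable {p : ℕ}

/-- the part of `f` with the monomials in `S` -/
def prt (S : (Fin 3 →₀ ℕ) → Prop) [DecidablePred S] (f : A p) : A p :=
  fun α => if S α then coeff α f else 0

theorem coeff_prt (S : (Fin 3 →₀ ℕ) → Prop) [DecidablePred S] (f : A p) (α : Fin 3 →₀ ℕ) :
    coeff α (prt S f) = if S α then coeff α f else 0 := rfl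

theorem prt_mem (S : (Fin 3 →₀ ℕ) → Prop) [DecidablePred S] {f : A p} {i : ℕ} (hf : f ∈ M p i) :
    prt S f ∈ M p i := by
  intro α hα
  rw [coeff_prt, hf α hα, ite_self]

/-- division by a variable -/
theorem div_X (j : Fin 3) {f : A p} (hf : ∀ α : Fin 3 →₀ ℕ, α j = 0 → coeff α f = 0) :
    ∃ g : A p, f = X j * g ∧ ∀ i, f ∈ M p i → g ∈ M p (i - 1) := by
  obtain ⟨g, hg⟩ := X_dvd_iff.2 hf
  refine ⟨g, hg, fun i hi α hα => ?_⟩
  have h1 := hi (Finsupp.single j 1 + α) (by
    rw [map_add, Finsupp.degree_single]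
    omega)
  rw [hg, X, coeff_add_monomial_mul, one_mul] at h1
  exact h1

/-- division with remainder by the variables -/
theorem dec (f : A p) : ∃ (c : ZMod p) (g : Fin 3 → A p), f = C c + ∑ j, X j * g j ∧
    ∀ i, f ∈ M p (i + 1) → c = 0 ∧ ∀ j, g j ∈ M p i := by
  obtain ⟨g0, h0, k0⟩ := div_X 0 (f := prt (fun α => α 0 ≠ 0) f) (fun α hα => by
    rw [coeff_prt, if_neg (by simpa using hα)])
  obtain ⟨g1, h1, k1⟩ := div_X 1 (f := prt (fun α => α 0 = 0 ∧ α 1 ≠ 0) f) (fun α hα => by
    rw [coeff_prt, if_neg (by tauto)])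
  obtain ⟨g2, h2, k2⟩ := div_X 2 (f := prt (fun α => α 0 = 0 ∧ α 1 = 0 ∧ α 2 ≠ 0) f)
    (fun α hα => by rw [coeff_prt, if_neg (by tauto)])
  refine ⟨coeff 0 f, ![g0, g1, g2], ?_, fun i hi => ⟨hi 0 (by simp), fun j => ?_⟩⟩
  · rw [Fin.sum_univ_three]
    show f = C (coeff 0 f) + (X 0 * g0 + X 1 * g1 + X 2 * g2)
    rw [← h0, ← h1, ← h2]
    ext α
    rw [map_add, map_add, map_add, coeff_prt, coeff_prt, coeff_prt, coeff_C]
    by_cases a0 : α 0 = 0
    · by_cases a1 : α 1 = 0
      · by_cases a2 : α 2 = 0
        · have : α = 0 := by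
            ext i
            fin_cases i
            · exact a0
            · exact a1
            · exact a2
          subst this
          simp
        · have : α ≠ 0 := by
            rintro rfl
            exact a2 rfl
          simp [a0, a1, a2, this]
      · have : α ≠ 0 := by
          rintro rfl
          exact a1 rfl
        simp [a0, a1, this]
    · have : α ≠ 0 := by
        rintro rfl
        exact a0 rfl
      simp [a0, this]
  · fin_cases j
    · exact k0 (i + 1) (prt_mem _ hi)
    · exact k1 (i + 1) (prt_mem _ hi)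
    · exact k2 (i + 1) (prt_mem _ hi)

/-- an endomorphism which moves the variables by terms of high order -/
theorem sub_mem {k : ℕ} (s : A p →ₐ[ZMod p] A p) (δ : Fin 3 → A p)
    (hδ : ∀ i, δ i ∈ M p (k + 1)) (hs : ∀ i, s (X i) = X i + δ i) :
    ∀ (i : ℕ) (f : A p), f ∈ M p i → s f - f ∈ M p (i + k) := by
  have key : ∀ (c : ZMod p) (g : Fin 3 → A p),
      s (C c + ∑ j, X j * g j) - (C c + ∑ j, X j * g j) =
        ∑ j, ((X j + δ j) * (s (g j) - g j) + δ j * g j) := by
    intro c g
    have hc : s (C c) = C c := by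
      have := s.commutes c
      exact this
    rw [map_add, hc, map_sum, add_sub_add_left_eq_sub, ← Finset.sum_sub_distrib]
    refine Finset.sum_congr rfl fun j _ => ?_
    rw [map_mul, hs]
    ring
  have hX : ∀ j, X j + δ j ∈ M p 1 := fun j =>
    Ideal.add_mem _ (X_mem j) (M_anti (by omega) (hδ j))
  have h0 : ∀ n, n ≤ k → ∀ f : A p, s f - f ∈ M p n := by
    intro n
    induction n with
    | zero => intro _ f; exact M_zero _
    | succ n ih =>
      intro hn f
      obtain ⟨c, g, hf, -⟩ := dec f
      rw [hf, key]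
      refine Ideal.sum_mem _ fun j _ => Ideal.add_mem _ ?_ ?_
      · have := M_mul (hX j) (ih (by omega) (g j))
        exact M_anti (by omega) this
      · exact M_mul_right (M_anti (by omega) (hδ j))
  intro i
  induction i with
  | zero =>
    intro f _
    rw [zero_add]
    exact h0 k le_rfl f
  | succ i ih =>
    intro f hfi
    obtain ⟨c, g, hf, hg⟩ := dec f
    obtain ⟨-, hg⟩ := hg i hfi
    rw [hf, key]
    refine Ideal.sum_mem _ fun j _ => Ideal.add_mem _ ?_ ?_
    · have := M_mul (hX j) (ih (g j) (hg j))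
      exact M_anti (by omega) this
    · have := M_mul (hδ j) (hg j)
      exact M_anti (by omega) this

theorem t_EXIST (p : ℕ) [Fact p.Prime] : S_EXIST p := by
  intro k hk δ hδ
  have ha : HasSubst (fun i => (X i : A p) + δ i) := by
    apply hasSubst_of_constantCoeff_zero
    intro i
    rw [map_add, constantCoeff_X, zero_add]
    exact hδ i 0 (by simp)
  obtain ⟨s, hs⟩ : ∃ s : A p →ₐ[ZMod p] A p, s = substAlgHom ha := ⟨_, rfl⟩
  have hsX : ∀ i, s (X i) = X i + δ i := fun i => by rw [hs]; exact substAlgHom_X ha i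
  have hsub := sub_mem s δ hδ hsX
  have hpres : ∀ (i : ℕ) (f : A p), f ∈ M p i → s f ∈ M p i := by
    intro i f hf
    have h1 : s f = (s f - f) + f := by ring
    rw [h1]
    exact Ideal.add_mem _ (M_anti (by omega) (hsub i f hf)) hf
  have hinj : Function.Injective s := by
    rw [injective_iff_map_eq_zero]
    intro f hf
    apply M_all
    intro i
    induction i with
    | zero => exact M_zero _
    | succ i ih =>
      have h1 := hsub i f ih
      rw [hf, zero_sub] at h1
      exact M_anti (by omega) ((Ideal.neg_mem_iff _).1 h1)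
  have hsurj : Function.Surjective s := by
    intro f
    -- the successive remainders
    obtain ⟨r, hr0, hr⟩ : ∃ r : ℕ → A p, r 0 = f ∧ ∀ l, r (l + 1) = r l - s (r l) :=
      ⟨fun l => Nat.rec f (fun _ x => x - s x) l, rfl, fun _ => rfl⟩
    have hrm : ∀ l, r l ∈ M p l := by
      intro l
      induction l with
      | zero => exact M_zero _
      | succ l ih =>
        rw [hr]
        have h1 := hsub l _ ih
        have h2 : r l - s (r l) = -(s (r l) - r l) := by ring
        rw [h2]
        exact M_anti (by omega) ((Ideal.neg_mem_iff _).2 h1)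
    obtain ⟨g, hg⟩ : ∃ g : A p, ∀ α : Fin 3 →₀ ℕ,
        coeff α g = ∑ l ∈ Finset.range (α.degree + 1), coeff α (r l) :=
      ⟨fun α => ∑ l ∈ Finset.range (α.degree + 1), coeff α (r l), fun α => rfl⟩
    have hgm : ∀ N, g - ∑ l ∈ Finset.range N, r l ∈ M p N := by
      intro N α hα
      rw [map_sub, hg, map_sum, sub_eq_zero]
      have h1 : Finset.range (α.degree + 1) ⊆ Finset.range N := by
        intro l hl
        rw [Finset.mem_range] at hl ⊢
        omega
      refine Finset.sum_subset h1 fun l _ hl => ?_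
      rw [Finset.mem_range] at hl
      exact hrm l α (by omega)
    refine ⟨g, ?_⟩
    rw [← sub_eq_zero]
    apply M_all
    intro N
    have h1 : ∀ N, s (∑ l ∈ Finset.range N, r l) = f - r N := by
      intro N
      induction N with
      | zero => simp [hr0]
      | succ N ih =>
        rw [Finset.sum_range_succ, map_add, ih, hr]
        ring
    have h2 : s g - f = s (g - ∑ l ∈ Finset.range N, r l) - r N := by
      rw [map_sub, h1]
      ring
    rw [h2]
    exact Ideal.sub_mem _ (hpres N _ (hgm N)) (hrm N)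
  obtain ⟨g, hg⟩ : ∃ g : Au p, ∀ f, g f = s f :=
    ⟨AlgEquiv.ofBijective s ⟨hinj, hsurj⟩, fun f => rfl⟩
  refine ⟨g, ?_, fun i => by rw [hg, hsX]⟩
  intro i f hf
  refine ⟨by rw [hg]; exact hsub i f hf, ?_⟩
  have h1 : ∀ n, n ≤ i → g.symm f ∈ M p n := by
    intro n
    induction n with
    | zero => intro _; exact M_zero _
    | succ n ih =>
      intro hn
      have h2 := hsub n _ (ih (by omega))
      rw [← hg, g.apply_symm_apply] at h2
      have h3 : g.symm f = f - (f - g.symm f) := by ring
      rw [h3]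
      exact Ideal.sub_mem _ (M_anti hn hf) (M_anti (by omega) h2)
  have h2 := hsub i _ (h1 i le_rfl)
  rw [← hg, g.apply_symm_apply] at h2
  have h3 : g.symm f - f = -(f - g.symm f) := by ring
  rw [h3]
  exact (Ideal.neg_mem_iff _).2 h2

end Pool.Agent.N403.HJ
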